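import Mathlib

/-!
# The Eichler-Shimura conjecture for Hilbert newforms: level one suffices

`HilbertTheory` collects the known facts used. Newforms have parallel weight `2` and trivial character.

* Zhang: `f` has an associated abelian variety if `[F:ℚ]` is odd or some prime divides the level exactly.
* CM forms have associated abelian varieties (Shimura, Casselman).
* Base change (Langlands): let `E/F` be a solvable Galois extension, `E` totally real. The base change `f_E` is cuspidal: a newform
  of weight `2` can only be dihedral with respect to a totally imaginary quadratic extension, which is not contained in `E`.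
* Descent: if `B = A_{f_E}` exists, then so does `A_f`. The representations `ρ_{f,λ}` occur in the Tate module of the Weil
  restriction of `B` to `F`; let `A` be a simple isogeny factor in which one of them occurs (Faltings). The centre of
  `D = End⁰(A)` is `K_f`, and `dim A = m [K_f:ℚ]`, `m` the index of `D`. A real place of `F` gives an involution of the
  homology of `A` commuting with `D`, of trace zero, so `m = 1` (if `m = 2` then the commutant is a quaternion division algebra
  and contains no such involution). Good reduction: Néron-Ogg-Shafarevich; `𝒪_f` acts after an isogeny; the Euler factors:
  local-global compatibility.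
* Ascent: if `A_f` exists, then `A_{f_E}` is an isogeny factor of it over `E`, by the same argument.
* Adapted extensions: by Grunwald-Wang one can prescribe the completions of a solvable totally real extension `E` of `F`
  containing `F₀` at finitely many places, so that all the local components of `f_E` are unramified or unramified twists
  of the Steinberg representation. Then the level of `f_E` is squarefree.
-/

set_option autoImplicit false

namespace Pool.Agent.Results.MP_e1ffa3_nt.LevelOneSuffices

/-- Hilbert newforms of parallel weight `2` with trivial character over totally real fields, with the known facts used. -/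
structure HilbertTheory where
  /-- the totally real number fields -/
  Field : Type
  /-- the degree over `ℚ` -/
  deg : Field → ℕ
  /-- the newforms over a field -/
  Form : Field → Type
  /-- the level is `(1)` -/
  LevelOne : ∀ {F : Field}, Form F → Prop
  /-- some prime divides the level exactly -/
  Exact : ∀ {F : Field}, Form F → Prop
  one_not_exact : ∀ {F : Field} (f : Form F), LevelOne f → ¬ Exact f
  /-- the newform has an associated abelian variety -/
  Assoc : ∀ {F : Field}, Form F → Prop
  /-- Zhang -/
  zhang : ∀ {F : Field} (f : Form F), Odd (deg F) ∨ Exact f → Assoc f
  /-- the newform has complex multiplication -/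
  CM : ∀ {F : Field}, Form F → Prop
  /-- Shimura, Casselman -/
  casselman : ∀ {F : Field} (f : Form F), CM f → Assoc f
  /-- the solvable Galois extensions `E` of `F` with `E` totally real -/
  Ext : Field → Field → Type
  /-- base change -/
  bc : ∀ {F E : Field}, Ext F E → Form F → Form E
  bc_cm : ∀ {F E : Field} (h : Ext F E) (f : Form F), CM (bc h f) → CM f
  descent : ∀ {F E : Field} (h : Ext F E) (f : Form F), Assoc (bc h f) → Assoc f
  ascent : ∀ {F E : Field} (h : Ext F E) (f : Form F), Assoc f → Assoc (bc h f)
  /-- `[F:ℚ]` is divisible by `2 ^ k` and `F` contains `F₀` (the totally real field `F₀`, solvable over `ℚ`, and `k ≥ 1` are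
  fixed) -/
  Large : Field → Prop
  large_even : ∀ F, Large F → Even (deg F)
  /-- adapted extensions -/
  adapted : ∀ {F : Field} (f : Form F), ∃ (E : Field) (h : Ext F E), Large E ∧ (LevelOne (bc h f) ∨ Exact (bc h f))

/-- Q1: the Eichler-Shimura conjecture. -/
def EichlerShimura (T : HilbertTheory) : Prop :=
  ∀ F : T.Field, Even (T.deg F) → ∀ f : T.Form F, ¬ T.Exact f → T.Assoc f

/-- The conjecture for the newforms of level `(1)` without complex multiplication over the large fields. -/
def LevelOneCase (T : HilbertTheory) : Prop :=
  ∀ F : T.Field, T.Large F → ∀ f : T.Form F, T.LevelOne f → ¬ T.CM f → T.Assoc f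

/-- (A) Q1 holds if and only if it holds for the newforms of level `(1)` without complex multiplication over the totally real
fields which contain `F₀` and whose degree is divisible by `2 ^ k`. (B) A newform has an associated abelian variety if and only if its base change to some
(equivalently, every) solvable totally real extension has one. -/
theorem result (T : HilbertTheory) :
    (EichlerShimura T ↔ LevelOneCase T) ∧
    (∀ (F E : T.Field) (h : T.Ext F E) (f : T.Form F), T.Assoc f ↔ T.Assoc (T.bc h f)) := by
  refine ⟨⟨?_, ?_⟩, fun F E h f => ⟨T.ascent h f, T.descent h f⟩⟩
  · intro H F hF f hf _
    exact H F (T.large_even F hF) f (T.one_not_exact f hf)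
  · intro H F _ f _
    by_cases hcm : T.CM f
    · exact T.casselman f hcm
    obtain ⟨E, h, hE, h1 | h1⟩ := T.adapted f
    · exact T.descent h f (H E hE _ h1 fun hc => hcm (T.bc_cm h f hc))
    · exact T.descent h f (T.zhang _ (Or.inr h1))

end Pool.Agent.Results.MP_e1ffa3_nt.LevelOneSuffices
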