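import Pool.Agent.U707.LI.All
import Pool.Agent.U707.LI.ES

/-!
# Point counts at a set of places of positive density suffice for Hilbert newforms

`K` is a number field (for instance totally real), `R_t` finitely many continuous representations of
its Galois group over `ℚ̄_p`, pure of weight one, irreducible on every open subgroup and pairwise
not isomorphic on any open subgroup: for instance the representations `ρ_{f,t}` of a Hilbert newform
`f` of parallel weight two without complex multiplication and without inner twists, for all the
embeddings `t` of the field of its coefficients. `X_k` are finitely many smooth projective varieties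
over `K`, of any dimensions. If the trace `a_v = Tr a_v(f)` is a combination
`∑ c_k #X_k(𝔽_v)`, with rational coefficients `c_k`, for the places `v` of a set of positive upper
density, then every `R_t` is a subquotient of the tensor product of some `H^1(X_k)` and the
permutation representation of a finite Galois extension `L` of `K`, that is, of `H^1(X_k × L)`,
the dual of the Tate module of an abelian variety over `K`: only the first cohomology groups
matter. (With Faltings' theorem, and the real places, this gives the abelian variety associated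
with `f`; this last step is known, and not part of the Lean.)

Parts of the proof are by helper140, helper784, helper187, helper612, helper200 (see
`Pool.Agent.U707.LI.All`).
-/

set_option autoImplicit false

namespace Pool.Agent.Results.MP_e1ffa3_nt.PointCountsSuffice

open NumberField IsDedekindDomain Module Pool.Agent.W401.Cheb Pool.Agent.U707 Pool.Agent.U707.LI

/-- **Point counts at a set of places of positive density suffice.** -/
theorem result {K : Type} [Field K] [NumberField K] {p : ℕ} [Fact p.Prime]
    (θ : PadicAlgCl p ≃+* ℂ)
    -- the conjugates of the newform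
    {T : Type} [Fintype T] (R : T → LI.Rep K (PadicAlgCl p))
    (hR : ∀ t, (R t).StronglyIrreducible) (hRw : ∀ t, (R t).IsPure θ 1)
    (hne : ∀ t t', t ≠ t' → ∀ U : Subgroup (GK K), IsOpen (U : Set (GK K)) →
      ¬ SubquotOn U (R t).ρ (R t').ρ)
    (a : HeightOneSpectrum (𝓞 K) → ℚ)
    (ha : ∃ B : Set (HeightOneSpectrum (𝓞 K)), B.Finite ∧ ∀ v ∉ B, ∀ φ, GeoFrob v φ →
      ∑ t, (R t).tr φ = (a v : PadicAlgCl p))
    -- the varieties
    {κ : Type} [Fintype κ] (d : κ → ℕ) (H : κ → ℕ → LI.Rep K (PadicAlgCl p))
    (hH : ∀ k, ∀ j : ℕ, (H k j).IsPure θ j) (cnt : κ → HeightOneSpectrum (𝓞 K) → ℤ)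
    (hcnt : ∃ B : Set (HeightOneSpectrum (𝓞 K)), B.Finite ∧ ∀ v ∉ B, ∀ φ, GeoFrob v φ → ∀ k,
      (cnt k v : PadicAlgCl p) = ∑ j ∈ Finset.range (2 * d k + 1), (-1) ^ j * (H k j).tr φ)
    -- the relation
    (c : κ → ℚ) {P : Set (HeightOneSpectrum (𝓞 K))} (hP : PosDensity P)
    (h : ∀ v ∈ P, a v = ∑ k, c k * cnt k v) (t : T) :
    ∃ k, c k ≠ 0 ∧ ∃ U : Subgroup (GK K), U.Normal ∧ IsOpen (U : Set (GK K)) ∧
      SubquotOn ⊤ (R t).ρ (perm U (H k 1).ρ) := by
  obtain ⟨k, hk, j, -, hj, U, hUn, hUo, hs⟩ := conjCount sHAAR sCHEB sTRANS sIND sFR θ R 1 hR hRw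
    hne d H hH cnt hcnt a ha c hP h t
  have hj' : j = 1 := by exact_mod_cast hj
  subst hj'
  exact ⟨k, hk, U, hUn, hUo, hs⟩

end Pool.Agent.Results.MP_e1ffa3_nt.PointCountsSuffice
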